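import Mathlib
import Pool.Agent.TH899.UG.FSq
import Pool.Agent.W25.QL.Fam

/-! Project FS: four squares and prime values of `x + 2 y + 5 z`, for the tuples of an arbitrary large
admissible set of shifts. -/

set_option autoImplicit false

namespace Pool.Agent.Y827.FS

open Finset Filter Topology
open Pool.Agent.W25.QL (dens dens_le hcount main_gen)
open Pool.Agent.TH899.UG.FSq (Val)

/-- large primes are no obstruction -/
theorem adm_allZ {T K : ℕ} (H : Fin T → Fin K → ℤ)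
    (hH : ∀ p : ℕ, p.Prime → p ≤ T * K → ∃ r : ℤ, ∀ g i, ¬ (p : ℤ) ∣ r + H g i) (p : ℕ)
    (hp : p.Prime) : ∃ r : ℤ, ∀ g i, ¬ (p : ℤ) ∣ r + H g i := by
  classical
  rcases le_or_gt p (T * K) with h | h
  · exact hH p hp h
  · haveI : Fact p.Prime := ⟨hp⟩
    have : ∃ y : ZMod p, y ∉ (univ : Finset (Fin T × Fin K)).image (fun x => -(H x.1 x.2 : ZMod p)) := by
      by_contra hcon
      push Not at hcon
      have h1 : (univ : Finset (ZMod p)) ⊆ (univ : Finset (Fin T × Fin K)).image (fun x => -(H x.1 x.2 : ZMod p)) :=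
        fun y _ => hcon y
      have h2 := (card_le_card h1).trans card_image_le
      rw [card_univ, ZMod.card, card_univ, Fintype.card_prod, Fintype.card_fin, Fintype.card_fin] at h2
      omega
    obtain ⟨y, hy⟩ := this
    refine ⟨y.val, fun g i hd => hy ?_⟩
    rw [mem_image]
    refine ⟨(g, i), mem_univ _, ?_⟩
    rw [← ZMod.intCast_zmod_eq_zero_iff_dvd] at hd
    push_cast at hd
    rw [ZMod.natCast_zmod_val] at hd
    linear_combination -hd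

open Classical in
/-- the number of the `n ≤ N` in the window with all `n + v`, `v ∈ F`, prime -/
noncomputable def cF (c₁ c₂ : ℝ) (N : ℕ) (F : Finset ℤ) : ℕ :=
  ((Icc 1 N).filter (fun n : ℕ => c₁ * N ≤ n ∧ (n : ℝ) ≤ c₂ * N ∧
    ∀ v ∈ F, ((n : ℤ) + v).toNat.Prime)).card

theorem cF_anti {c₁ c₂ : ℝ} {N : ℕ} {F F' : Finset ℤ} (h : F' ⊆ F) : cF c₁ c₂ N F ≤ cF c₁ c₂ N F' := by
  classical
  unfold cF
  apply card_le_card
  intro n hn
  rw [mem_filter] at hn ⊢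
  exact ⟨hn.1, hn.2.1, hn.2.2.1, fun v hv => hn.2.2.2 v (h hv)⟩

open Classical in
theorem lamW : ∃ c : ℝ, 0 < c ∧ c < 1 ∧ ∀ c₁ c₂ : ℝ, 1 / 8 ≤ c₁ → c₁ < c₂ → c₂ ≤ 1 / 4 →
    ∀ T : ℕ, ∃ K : ℕ, 1 ≤ K ∧ (1 ≤ T → ∀ η : ℝ, 0 < η → ∀ᶠ N : ℕ in atTop,
      ∀ H : Fin T → Fin K → ℤ, Function.Injective (fun x : Fin T × Fin K => H x.1 x.2) →
      (∀ g i, 100 * |H g i| ≤ (N : ℤ)) →
      (∀ p : ℕ, p.Prime → p ≤ T * K → ∃ r : ℤ, ∀ g i, ¬ (p : ℤ) ∣ r + H g i) →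
      ∃ (S : Finset (Fin T)) (cc : Fin T → Fin K), (T : ℝ) ≤ (4 - c) * (S.card : ℝ) ∧
        (N : ℝ) ^ (1 - η) ≤ (cF c₁ c₂ N (S.image (fun g => H g (cc g))) : ℝ)) := by
  obtain ⟨c, hc0, hc1, hW⟩ := Pool.Agent.TH899.UG.NW.exactW
  refine ⟨c, hc0, hc1, fun c₁ c₂ h1 h2 h3 T => ?_⟩
  rcases Nat.eq_zero_or_pos T with rfl | hT
  · exact ⟨1, le_rfl, fun h => absurd h (by norm_num)⟩
  have hlam : (0 : ℝ) < 4 - c := by linarith
  have hTr : (0 : ℝ) < T := by exact_mod_cast hT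
  obtain ⟨M, hM⟩ : ∃ M : ℕ, M + 1 = ⌈(T : ℝ) / (4 - c)⌉₊ := by
    have : 0 < ⌈(T : ℝ) / (4 - c)⌉₊ := Nat.ceil_pos.2 (by positivity)
    exact ⟨⌈(T : ℝ) / (4 - c)⌉₊ - 1, by omega⟩
  have hMlt : (4 - c) * (M : ℝ) < T := by
    have h1 : (M : ℝ) < (T : ℝ) / (4 - c) := by
      rw [← Nat.lt_ceil]
      omega
    rw [lt_div_iff₀ hlam] at h1
    linarith
  have hMge : (T : ℝ) ≤ (4 - c) * ((M + 1 : ℕ) : ℝ) := by
    have h1 : (T : ℝ) / (4 - c) ≤ ((M + 1 : ℕ) : ℝ) := by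
      rw [hM]; exact Nat.le_ceil _
    rw [div_le_iff₀ hlam] at h1
    linarith
  obtain ⟨K, hK1, hK⟩ := hW c₁ c₂ h1 h2 h3 T M hT hMlt
  refine ⟨K, hK1, fun _ η hη => ?_⟩
  filter_upwards [hK 1 η hη, eventually_ge_atTop 1] with N hN hN1 H hinj hsmall hadm
  have hNR : (1 : ℝ) ≤ N := by exact_mod_cast hN1
  obtain ⟨S, σ, hS, hcnt⟩ := hN (fun _ _ => 1) H (fun _ _ => one_ne_zero) (fun _ _ => by simp)
    (fun g i => by
      have h4 := hsmall g i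
      have h5 := abs_nonneg (H g i)
      omega)
    (fun g i y hy1 hy2 => by
      have h4 : (100 : ℝ) * |(H g i : ℝ)| ≤ N := by exact_mod_cast hsmall g i
      have h5 := neg_abs_le (H g i : ℝ)
      push_cast
      linarith)
    (fun x y hxy => by
      apply hinj
      simp only [Prod.mk.injEq, true_and] at hxy
      exact hxy)
    (fun p hp => by
      obtain ⟨r, hr⟩ := adm_allZ H hadm p hp
      exact ⟨r, fun g i => by rw [one_mul]; exact hr g i⟩)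
  refine ⟨S, σ, hMge.trans ?_, hcnt.trans ?_⟩
  · apply mul_le_mul_of_nonneg_left _ hlam.le
    exact_mod_cast hS
  · rw [Nat.cast_le]
    unfold cF
    apply card_le_card
    intro n hn
    rw [mem_filter] at hn ⊢
    refine ⟨hn.1, hn.2.1, hn.2.2.1, fun v hv => ?_⟩
    obtain ⟨g, hg, rfl⟩ := mem_image.1 hv
    have := hn.2.2.2 g hg
    rwa [one_mul] at this

open Classical in
theorem tupW : ∃ c : ℝ, 0 < c ∧ c < 1 ∧ ∀ c₁ c₂ : ℝ, 1 / 8 ≤ c₁ → c₁ < c₂ → c₂ ≤ 1 / 4 →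
    ∀ (k : ℕ) (ε : ℝ), 0 < ε → ∃ z n₀ : ℕ, ∀ η : ℝ, 0 < η → ∀ᶠ N : ℕ in atTop,
      ∀ V : Finset ℤ, (∀ v ∈ V, 100 * |v| ≤ (N : ℤ)) →
      (∀ p : ℕ, p ≤ z → p.Prime → ∃ r : ℤ, ∀ v ∈ V, ¬ (p : ℤ) ∣ r + v) → n₀ ≤ V.card →
      (dens c k - ε) * (V.card : ℝ) ^ (k + 1) ≤
        (((Fintype.piFinset (fun _ : Fin (k + 1) => V)).filter (fun f => Function.Injective f ∧
          (N : ℝ) ^ (1 - η) ≤ (cF c₁ c₂ N (univ.image f) : ℝ))).card : ℝ) := by
  obtain ⟨c, hc0, hc1, hq⟩ := lamW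
  refine ⟨c, hc0, hc1, fun c₁ c₂ h1 h2 h3 k ε hε => ?_⟩
  choose Kf hKf1 hKf using hq c₁ c₂ h1 h2 h3
  obtain ⟨T, M, hT, hM⟩ := main_gen (lam := 4 - c) (by linarith) k (dens c k)
    (dens_le c hc0 hc1 k) (hcount c hc0 hc1 k) ε hε Kf
  obtain ⟨n₀, hn₀⟩ := hM Unit
  refine ⟨∑ T' ∈ range (M + 1), T' * Kf T', n₀, fun η hη => ?_⟩
  have hev : ∀ᶠ N : ℕ in atTop, ∀ T' : Fin (M + 1), 1 ≤ (T' : ℕ) →
      ∀ H : Fin (T' : ℕ) → Fin (Kf T') → ℤ,
      Function.Injective (fun x : Fin (T' : ℕ) × Fin (Kf T') => H x.1 x.2) →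
      (∀ g i, 100 * |H g i| ≤ (N : ℤ)) →
      (∀ p : ℕ, p.Prime → p ≤ T' * Kf T' → ∃ r : ℤ, ∀ g i, ¬ (p : ℤ) ∣ r + H g i) →
      ∃ (S : Finset (Fin (T' : ℕ))) (cc : Fin (T' : ℕ) → Fin (Kf T')),
        ((T' : ℕ) : ℝ) ≤ (4 - c) * (S.card : ℝ) ∧
        (N : ℝ) ^ (1 - η) ≤ (cF c₁ c₂ N (S.image (fun g => H g (cc g))) : ℝ) := by
    rw [eventually_all]
    intro T'
    by_cases h0 : 1 ≤ (T' : ℕ)
    swap
    · exact Eventually.of_forall fun x h => absurd h h0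
    filter_upwards [hKf T' h0 η hη] with N hN _
    exact hN
  filter_upwards [hev] with N hN V hVN hVadm hVn
  exact hn₀ ℤ V (fun _ => ())
    (fun F => (N : ℝ) ^ (1 - η) ≤ (cF c₁ c₂ N F : ℝ)) hVn
    (fun F F' hF h => h.trans (by exact_mod_cast cF_anti hF)) (by
      intro T' hT'1 hT'M H hHV hHinj _
      exact hN ⟨T', by omega⟩ hT'1 H hHinj (fun g i => hVN _ (hHV g i)) (by
        intro p hp hpT
        obtain ⟨r, hr⟩ := hVadm p (hpT.trans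
          (Finset.single_le_sum (f := fun T' => T' * Kf T') (fun _ _ => Nat.zero_le _)
                (mem_range.2 (by omega)))) hp
        exact ⟨r, fun g i => hr _ (hHV g i)⟩))

open Classical in
/-- the `q < n` for which all the `q + v`, `v ∈ F`, are primes and values of `x + 2 y + 5 z` at
representations of `n` as a sum of four squares -/
noncomputable def pl (n : ℕ) (F : Finset ℤ) : Finset ℕ :=
  (range n).filter (fun q => ∀ v ∈ F, ∃ p : ℕ, (p : ℤ) = q + v ∧ p.Prime ∧ Val n p)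

open Classical in
theorem main : ∃ κ : ℝ, 0 < κ ∧ κ < 1 ∧ ∀ (k : ℕ) (ε : ℝ), 0 < ε → ∃ z n₀ : ℕ, ∀ η : ℝ, 0 < η →
    ∀ᶠ n : ℕ in atTop, ¬ 4 ∣ n → ∀ V : Finset ℤ, (∀ v ∈ V, (200 * v) ^ 2 ≤ n) →
      (∀ p : ℕ, p ≤ z → p.Prime → ∃ r : ℤ, ∀ v ∈ V, ¬ (p : ℤ) ∣ r + v) → n₀ ≤ V.card →
      (dens κ k - ε) * (V.card : ℝ) ^ (k + 1) ≤
        (((Fintype.piFinset (fun _ : Fin (k + 1) => V)).filter (fun f => Function.Injective f ∧
          (n : ℝ) ^ (1 / 2 - η) ≤ ((pl n (univ.image f)).card : ℝ))).card : ℝ) := by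
  obtain ⟨κ, hκ, hκ1, HD⟩ := tupW
  refine ⟨κ, hκ, hκ1, fun k ε hε => ?_⟩
  obtain ⟨z, n₀, HD⟩ := HD (501 / 4000) (253 / 2000) (by norm_num) (by norm_num) (by norm_num) k ε hε
  refine ⟨z, n₀, fun η hη => ?_⟩
  obtain ⟨η', hη'd⟩ : ∃ η' : ℝ, η' = min η 1 := ⟨_, rfl⟩
  have hη'0 : 0 < η' := by rw [hη'd]; exact lt_min hη one_pos
  have hη'1 : η' ≤ 1 := by rw [hη'd]; exact min_le_right _ _
  have hη'η : η' ≤ η := by rw [hη'd]; exact min_le_left _ _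
  have htN : Tendsto (fun n : ℕ => ⌈8 * Real.sqrt (29 * (n : ℝ))⌉₊) atTop atTop := by
    refine tendsto_nat_ceil_atTop.comp ?_
    refine Tendsto.const_mul_atTop (by norm_num) ?_
    refine Real.tendsto_sqrt_atTop.comp ?_
    exact Tendsto.const_mul_atTop (by norm_num) tendsto_natCast_atTop_atTop
  filter_upwards [htN.eventually (HD η' hη'0), eventually_ge_atTop 1000000] with n hn hn6
  intro h4 V hV hadm hVn
  have hnR : (1000000 : ℝ) ≤ n := by exact_mod_cast hn6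
  obtain ⟨N, hNd⟩ : ∃ N : ℕ, N = ⌈8 * Real.sqrt (29 * (n : ℝ))⌉₊ := ⟨_, rfl⟩
  rw [← hNd] at hn
  obtain ⟨s, hs⟩ : ∃ s : ℝ, s = Real.sqrt (29 * (n : ℝ)) := ⟨_, rfl⟩
  obtain ⟨r, hr⟩ : ∃ r : ℝ, r = Real.sqrt (n : ℝ) := ⟨_, rfl⟩
  have hs2 : s ^ 2 = 29 * n := by rw [hs]; exact Real.sq_sqrt (by positivity)
  have hr2 : r ^ 2 = n := by rw [hr]; exact Real.sq_sqrt (by positivity)
  have hs0 : 0 ≤ s := by rw [hs]; exact Real.sqrt_nonneg _
  have hr0 : 0 ≤ r := by rw [hr]; exact Real.sqrt_nonneg _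
  have hr1000 : 1000 ≤ r := by
    by_contra hcon
    push Not at hcon
    have : r ^ 2 < 1000 ^ 2 := by gcongr
    rw [hr2] at this
    linarith
  have hsr : 5 * r ≤ s := by
    by_contra hcon
    push Not at hcon
    have : s ^ 2 < (5 * r) ^ 2 := by gcongr
    rw [hs2, mul_pow, hr2] at this
    linarith
  have hsr' : s ≤ 6 * r := by
    by_contra hcon
    push Not at hcon
    have : (6 * r) ^ 2 < s ^ 2 := by gcongr
    rw [hs2, mul_pow, hr2] at this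
    linarith
  have hN1 : 8 * s ≤ N := by rw [hNd, hs]; exact Nat.le_ceil _
  have hN2 : (N : ℝ) < 8 * s + 1 := by
    rw [hNd, hs]
    exact Nat.ceil_lt_add_one (by positivity)
  have hcr : ∀ v ∈ V, 200 * |(v : ℝ)| ≤ r := by
    intro v hv
    have h1 : ((200 * v : ℤ) : ℝ) ^ 2 ≤ r ^ 2 := by
      rw [hr2]
      exact_mod_cast hV v hv
    have h3 : |((200 * v : ℤ) : ℝ)| ≤ r := abs_le_of_sq_le_sq h1 hr0
    push_cast at h3
    rw [abs_mul] at h3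
    norm_num at h3
    exact h3
  have hrN : r ≤ N := by linarith
  have h100 : ∀ v ∈ V, 100 * |v| ≤ (N : ℤ) := by
    intro v hv
    have h1 : (100 : ℝ) * |(v : ℝ)| ≤ N := by
      have h2 := hcr v hv
      have h3 := abs_nonneg (v : ℝ)
      linarith
    exact_mod_cast h1
  refine (hn V h100 hadm hVn).trans ?_
  rw [Nat.cast_le]
  apply card_le_card
  intro f hf
  rw [mem_filter, Fintype.mem_piFinset] at hf ⊢
  obtain ⟨hfV, hfi, hfc⟩ := hf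
  refine ⟨hfV, hfi, ?_⟩
  have hpow : (n : ℝ) ^ (1 / 2 - η) ≤ (N : ℝ) ^ (1 - η') := by
    have h1 : r ^ (1 - η') ≤ (N : ℝ) ^ (1 - η') :=
      Real.rpow_le_rpow hr0 hrN (by linarith)
    refine le_trans ?_ h1
    rw [hr, Real.sqrt_eq_rpow, ← Real.rpow_mul (by positivity)]
    apply Real.rpow_le_rpow_of_exponent_le (by linarith)
    linarith
  refine hpow.trans (hfc.trans ?_)
  rw [Nat.cast_le]
  unfold cF pl
  apply card_le_card
  intro q hq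
  obtain ⟨hq1, hq2, hq3, hq4⟩ := mem_filter.1 hq
  have hqN : (q : ℝ) ≤ N := by exact_mod_cast (mem_Icc.1 hq1).2
  refine mem_filter.2 ⟨mem_range.2 ?_, fun v hv => ?_⟩
  · have h1 : (q : ℝ) < n := by
      rw [← hr2]
      nlinarith
    exact_mod_cast h1
  · have hp := hq4 v hv
    obtain ⟨i, -, hi⟩ := mem_image.1 hv
    have hvV : v ∈ V := by rw [← hi]; exact hfV i
    obtain ⟨p, hpd⟩ : ∃ p : ℕ, p = ((q : ℤ) + v).toNat := ⟨_, rfl⟩
    rw [← hpd] at hp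
    have hpz : (p : ℤ) = q + v := by
      have h1 : 0 < ((q : ℤ) + v).toNat := by
        rw [← hpd]
        exact hp.pos
      omega
    have hpR : (p : ℝ) = q + v := by exact_mod_cast hpz
    have hc1 := (abs_le.1 (le_refl |(v : ℝ)|)).1
    have hc2 := (abs_le.1 (le_refl |(v : ℝ)|)).2
    have hc3 := hcr v hvV
    have hps : s ≤ p := by
      rw [hpR]
      linarith
    have hps2 : (p : ℝ) ≤ 1.0145 * s := by
      rw [hpR]
      linarith
    refine ⟨p, hpz, hp, ?_⟩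
    have h29 : 29 * n ≤ p ^ 2 := by
      have h1 : s ^ 2 ≤ (p : ℝ) ^ 2 := by gcongr
      rw [hs2] at h1
      exact_mod_cast h1
    have h30 : p ^ 2 ≤ 30 * n := by
      have h1 : (p : ℝ) ^ 2 ≤ (1.0145 * s) ^ 2 := by gcongr
      rw [mul_pow, hs2] at h1
      have h2 : (p : ℝ) ^ 2 ≤ 30 * n := by
        have h3 : (1.0145 : ℝ) ^ 2 * (29 * n) ≤ 30 * n := by
          have h5 : (0 : ℝ) ≤ n := by positivity
          nlinarith
        linarith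
      exact_mod_cast h2
    have hcop : Nat.Coprime p 30 := by
      rw [Nat.Prime.coprime_iff_not_dvd hp]
      intro hd
      have h1 := Nat.le_of_dvd (by norm_num) hd
      have h2 : (p : ℝ) ≤ 30 := by exact_mod_cast h1
      linarith
    obtain ⟨x, y, z, w, h5, h6⟩ := Pool.Agent.H141R2.FS.rep h4 hcop h29 h30
    exact ⟨x, y, z, w, h5, h6.symm⟩

end Pool.Agent.Y827.FS
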